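import Mathlib
import Pool.Agent.H737R3.Points

/-!
# MP_3eef69_ag, Q1: Chudnovsky's conjecture on Waldschmidt constants of points

Over every field `K`, for every `n ≥ 1` and every nonempty finite set `Z` of points of `ℙⁿ` the
Waldschmidt constant of the ideal of `Z` is at least `(α(I_Z) + n - 1) / n`.
-/

set_option autoImplicit false

namespace Pool.Agent.Results.MP_3eef69_ag.Chudnovsky

open MvPolynomial Filter Topology

/-- Projective space of dimension `n` over `K`: the lines through the origin of `K ^ (n + 1)`. -/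
abbrev PSpace (K : Type*) [Field K] (n : ℕ) := Projectivization K (Fin (n + 1) → K)

/-- The homogeneous prime ideal `𝔭` of the point `P` of `ℙⁿ`: the ideal of `K[x_0, …, x_n]`
generated by all forms (homogeneous polynomials of any degree) which vanish at `P`. -/
noncomputable def pointIdeal {K : Type*} [Field K] {n : ℕ} (P : PSpace K n) :
    Ideal (MvPolynomial (Fin (n + 1)) K) :=
  Ideal.span {F | (∃ d : ℕ, F.IsHomogeneous d) ∧ eval P.rep F = 0}

/-- The `k`-th symbolic power `I_Z^(k) = 𝔭_1 ^ k ∩ ⋯ ∩ 𝔭_s ^ k` of the ideal `I_Z` of the finite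
set of points `Z = {P_1, …, P_s}`. -/
noncomputable def symbolicPower {K : Type*} [Field K] {n : ℕ} (Z : Finset (PSpace K n)) (k : ℕ) :
    Ideal (MvPolynomial (Fin (n + 1)) K) :=
  ⨅ P ∈ Z, pointIdeal P ^ k

/-- The homogeneous vanishing ideal `I_Z = 𝔭_1 ∩ ⋯ ∩ 𝔭_s` of the finite set `Z`. -/
noncomputable def idealOfPoints {K : Type*} [Field K] {n : ℕ} (Z : Finset (PSpace K n)) :
    Ideal (MvPolynomial (Fin (n + 1)) K) :=
  ⨅ P ∈ Z, pointIdeal P

/-- `α(J)` for a homogeneous ideal `J`: the least degree of a nonzero homogeneous element of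
`J`. -/
noncomputable def alpha {K : Type*} [Field K] {n : ℕ} (J : Ideal (MvPolynomial (Fin (n + 1)) K)) :
    ℕ :=
  sInf {d | ∃ F ∈ J, F ≠ 0 ∧ F.IsHomogeneous d}

theorem alpha_symbolicPower {K : Type*} [Field K] {n : ℕ} (hn : 1 ≤ n) (Z : Finset (PSpace K n))
    (k : ℕ) : alpha (symbolicPower Z k) = H737R3.alpha (H737R3.wIdeal Z (fun _ => k * 1)) := by
  rw [← H737R3.alphaH_eq hn, mul_one]
  rfl

/-- **Chudnovsky's conjecture.** Let `K` be any field, `n ≥ 1` and `Z` a nonempty finite set of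
points of projective `n`-space over `K`. Then the Waldschmidt constant
`c = lim α(I_Z^(k)) / k` of `Z` exists, and `c ≥ (α(I_Z) + n - 1) / n`. -/
theorem result (K : Type*) [Field K] (n : ℕ) (hn : 1 ≤ n) (Z : Finset (PSpace K n))
    (hZ : Z.Nonempty) :
    ∃ c : ℝ, Tendsto (fun k : ℕ => (alpha (symbolicPower Z k) : ℝ) / k) atTop (𝓝 c) ∧
      ((alpha (idealOfPoints Z) : ℝ) + n - 1) / n ≤ c := by
  obtain ⟨c, hc⟩ := H737R3.exists_limit hn Z (fun _ => 1)
  obtain ⟨q, hq⟩ := hZ
  have hc' : Tendsto (fun k : ℕ => (alpha (symbolicPower Z k) : ℝ) / k) atTop (𝓝 c) := by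
    refine hc.congr fun k => ?_
    rw [alpha_symbolicPower hn]
  refine ⟨c, hc', ?_⟩
  have h1 : alpha (idealOfPoints Z) = H737R3.alpha (H737R3.wIdeal Z (fun _ => 1 * 1)) := by
    rw [← alpha_symbolicPower hn Z 1]
    unfold idealOfPoints symbolicPower
    simp only [pow_one]
  have h2 : ((alpha (idealOfPoints Z) : ℝ) + n - 1) / n =
      ((alpha (idealOfPoints Z) : ℝ) + n - 1) / (((1 : ℕ) : ℝ) + n - 1) := by
    congr 1
    push_cast
    ring
  rw [h2, h1]
  refine ge_of_tendsto hc ?_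
  filter_upwards [eventually_ge_atTop 1] with k hk
  exact H737R3.real_of_nat hn le_rfl hk
    (H737R3.demailly_w hn Z (fun _ => 1) ⟨q, hq, le_rfl⟩ 1 k le_rfl)

end Pool.Agent.Results.MP_3eef69_ag.Chudnovsky
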